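import Pool.Agent.Helper26.KN.Goals

/-! Packet JB: the inequality J for the numbers phi. -/

namespace KN.PkJB

theorem jb : G_FD → G_ZX → G_B123 → G_J → G_JB := by
  intro hFD hZX hB hJ q w hq hq1 hw N hN
  obtain ⟨N', rfl⟩ : ∃ N', N = N' + 3 := ⟨N - 3, by omega⟩
  obtain ⟨Z, hZ⟩ := hZX q (Hs (1 + w))
  have hH : HP (1 + w) (Hs (1 + w)) := (hFD (1 + w)).2
  obtain ⟨h3, h2, h1⟩ := hB q w Z hw hZ N'
  have hj := hJ (1 + w) q (Hs (1 + w)) Z (by linarith) hq hq1 hH hZ N'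
  unfold JB
  rw [h3, h2, h1]
  generalize al (Hs (1 + w)) Z N' = A at *
  generalize be (1 + w) (Hs (1 + w)) Z N' = B at *
  generalize ga (Hs (1 + w)) Z N' = G at *
  generalize ((N'.factorial : ℝ)) = M at *
  have key : 0 ≤ M ^ 2 * ((1 - q) * (12 * B ^ 2 + 2 * (1 + q) * A * B + 2 * q * (1 + q) * B * G
      - (1 - q) * (4 + q) * A * G)) :=
    mul_nonneg (sq_nonneg M) (mul_nonneg (by linarith) (by linarith))
  nlinarith [key]

end KN.PkJB
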